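import Pool.Agent.Q27.Walk.OscGroup

/-!
# Law probabilities of lazy random walks need not converge

The group is generated by `t` and an involution `a`. Let `K` be a set of positive integers and let
`G` be the subgroup of `(ℤ/2 ≀ ℤ) × ∏_{k ≥ 0} (H ≀ ℤ)`, where `H` is the group of unitriangular
`3 × 3` matrices over `𝔽₂` with its generating involutions `α`, `β`, generated by the diagonal
translation `t` and the element `a` which is the lamp at `0` in the first factor, and the product
of the lamp `α` at `0` and, if `k ∈ K`, the lamp `β` at `k` in the factor `k`. The word is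
`[u³² [x, y] u⁻³², [z, v]]`. At time `n` its probability is close to zero if `K` contains all
integers between some `R ≪ √n` and `41 n`, and it is at least `1/16` if `K` has no elements between
`√n` and `41 n`.

The definitions (`Pool/Agent/Q27/Walk/Basic.lean`): `law μ n` is the `n`-th convolution power of
the finitely supported measure `μ : G →₀ ℝ`; `satProb μ w n` is the probability that `d`
independent `n`-step random walks with step distribution `μ` satisfy `w`.
-/

set_option autoImplicit false

open Filter Topology Q27.Walk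

namespace Pool.Agent.Results.MP_6a29fd_al.NoLimit

/-- The step distribution of the lazy random walk: the step is `1` with probability `1/2` and
uniform on the finite set `S` otherwise. -/
noncomputable def lazyStep {G : Type} [Group G] (S : Finset G) : G →₀ ℝ :=
  Finsupp.single 1 (1 / 2) + ∑ s ∈ S, Finsupp.single s (1 / (2 * (S.card : ℝ)))

/-- The probability `p_n(G, S, w)` that `d` independent lazy random walks at time `n` satisfy the
law `w`. -/
noncomputable def prob {G : Type} [Group G] (S : Finset G) {d : ℕ} (w : FreeGroup (Fin d))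
    (n : ℕ) : ℝ := satProb (lazyStep S) w n

open Classical in
/-- The generating set. -/
noncomputable def SG (K : Set ℕ) : Finset (GK K) := {aG K, tG K, (tG K)⁻¹}

theorem at_ne (K : Set ℕ) : aG K ≠ tG K := by
  intro h
  have := congrArg (fun x => (prG K x).a) h
  change (0 : ℤ) = 1 at this
  omega

theorem at'_ne (K : Set ℕ) : aG K ≠ (tG K)⁻¹ := by
  intro h
  have := congrArg (fun x => (prG K x).a) h
  change (0 : ℤ) = -1 at this
  omega

theorem tt_ne (K : Set ℕ) : tG K ≠ (tG K)⁻¹ := by
  intro h
  have := congrArg (fun x => (prG K x).a) h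
  change (1 : ℤ) = -1 at this
  omega

theorem lazyStep_SG (K : Set ℕ) : lazyStep (SG K) = unif (stG K) := by
  classical
  have h1 : aG K ∉ ({tG K, (tG K)⁻¹} : Finset (GK K)) := by
    rw [Finset.mem_insert, Finset.mem_singleton]
    rintro (h | h)
    · exact at_ne K h
    · exact at'_ne K h
  have h2 : tG K ∉ ({(tG K)⁻¹} : Finset (GK K)) := by
    rw [Finset.mem_singleton]
    exact tt_ne K
  have hcard : (SG K).card = 3 := by
    unfold SG
    convert Finset.card_eq_three.2 ⟨aG K, tG K, (tG K)⁻¹, at_ne K, at'_ne K, tt_ne K, rfl⟩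
  unfold lazyStep unif
  rw [hcard, Fin.sum_univ_six, Fintype.card_fin]
  have e : ∑ s ∈ SG K, Finsupp.single s (1 / (2 * ((3 : ℕ) : ℝ))) =
      Finsupp.single (aG K) (1 / (2 * ((3 : ℕ) : ℝ))) +
        (Finsupp.single (tG K) (1 / (2 * ((3 : ℕ) : ℝ))) +
          Finsupp.single (tG K)⁻¹ (1 / (2 * ((3 : ℕ) : ℝ)))) := by
    have e' : SG K = insert (aG K) (insert (tG K) {(tG K)⁻¹}) := by
      unfold SG
      congr
    rw [e', Finset.sum_insert h1, Finset.sum_insert h2, Finset.sum_singleton]
  rw [e]
  have s0 : stG K 0 = 1 := rfl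
  have s1 : stG K 1 = 1 := rfl
  have s2 : stG K 2 = 1 := rfl
  have s3 : stG K 3 = aG K := rfl
  have s4 : stG K 4 = tG K := rfl
  have s5 : stG K 5 = (tG K)⁻¹ := rfl
  rw [s0, s1, s2, s3, s4, s5]
  have h3 : Finsupp.single (1 : GK K) (1 / 2 : ℝ) = Finsupp.single 1 (((6 : ℕ) : ℝ)⁻¹) +
      Finsupp.single 1 (((6 : ℕ) : ℝ)⁻¹) + Finsupp.single 1 (((6 : ℕ) : ℝ)⁻¹) := by
    rw [← Finsupp.single_add, ← Finsupp.single_add]
    norm_num
  have h4 : (1 : ℝ) / (2 * ((3 : ℕ) : ℝ)) = ((6 : ℕ) : ℝ)⁻¹ := by norm_num
  rw [h3, h4]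
  abel

theorem SG_inv {K : Set ℕ} (hK : 0 ∉ K) : ∀ s ∈ SG K, s⁻¹ ∈ SG K := by
  classical
  intro s hs
  have ha : (aG K)⁻¹ = aG K := by
    rw [inv_eq_iff_mul_eq_one]
    exact Subtype.ext (aK_sq hK)
  unfold SG at hs ⊢
  simp only [Finset.mem_insert, Finset.mem_singleton] at hs ⊢
  rcases hs with rfl | rfl | rfl
  · exact Or.inl ha
  · exact Or.inr (Or.inr rfl)
  · exact Or.inr (Or.inl (inv_inv _))

theorem SG_closure (K : Set ℕ) : Subgroup.closure (SG K : Set (GK K)) = ⊤ := by
  classical
  rw [eq_top_iff, ← closure_GK K]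
  apply Subgroup.closure_mono
  rintro x (rfl | rfl)
  · simp [SG]
  · simp [SG]

/-- There are a finitely generated group `G`, a finite symmetric generating set `S` of `G` and a
word `w` in five variables such that the probabilities `p_n(G, S, w)` for independent lazy random
walks satisfy `liminf p_n ≤ 1/32 < 1/16 ≤ limsup p_n`. -/
theorem result :
    ∃ (G : Type) (_ : Group G) (S : Finset G),
      (∀ s ∈ S, s⁻¹ ∈ S) ∧ Subgroup.closure (S : Set G) = ⊤ ∧
      ∃ w : FreeGroup (Fin 5),
        limsup (fun n => prob S w n) atTop ≠ liminf (fun n => prob S w n) atTop ∧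
        liminf (fun n => prob S w n) atTop ≤ 1 / 32 ∧
        1 / 16 ≤ limsup (fun n => prob S w n) atTop := by
  obtain ⟨K, hK0, h1, h2⟩ := exists_osc
  have hp : ∀ n, prob (SG K) word n = pK K n := by
    intro n
    unfold prob
    rw [lazyStep_SG, satProb_eq]
  have hn0 : ∀ n, 0 ≤ pK K n := by
    intro n
    unfold pK
    refine E_lawL_nonneg (fun x => E_lawL_nonneg (fun y => E_lawL_nonneg (fun z =>
      E_lawL_nonneg (fun v => E_lawL_nonneg (fun u => ?_) n) n) n) n) n
    split_ifs <;> norm_num
  have hn1 : ∀ n, pK K n ≤ 1 := by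
    intro n
    unfold pK
    have key : ∀ φ : Wr L2 → ℝ, (∀ g, φ g ≤ 1) → E (lawL n) φ ≤ 1 := by
      intro φ hφ
      have := E_mono (lawL_nonneg n) hφ
      rwa [lawL_one] at this
    refine key _ (fun x => key _ (fun y => key _ (fun z => key _ (fun v => key _ (fun u => ?_)))))
    split_ifs <;> norm_num
  have hlow : liminf (fun n => prob (SG K) word n) atTop ≤ 1 / 32 := by
    simp only [hp]
    apply liminf_le_of_frequently_le
    · rw [frequently_atTop]
      exact h1
    · exact ⟨0, Filter.eventually_map.2 (Eventually.of_forall hn0)⟩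
  have hup : 1 / 16 ≤ limsup (fun n => prob (SG K) word n) atTop := by
    simp only [hp]
    apply le_limsup_of_frequently_le
    · rw [frequently_atTop]
      exact h2
    · exact ⟨1, Filter.eventually_map.2 (Eventually.of_forall hn1)⟩
  refine ⟨GK K, inferInstance, SG K, SG_inv hK0, SG_closure K, word, ?_, hlow, hup⟩
  intro h
  rw [h] at hup
  linarith

end Pool.Agent.Results.MP_6a29fd_al.NoLimit
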